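import Mathlib
import Pool.Agent.Helper36.Weiss.U1

/-! Limits of empirical measures (MP_49a1ce_an). -/

set_option autoImplicit false

open Set Filter Topology MeasureTheory

namespace Pool.Agent.Helper48.MTR

open Pool.Agent.Helper36.Weiss (emp emp_prob emp_integral)

theorem sum_Icc_eq {Z : Type*} (F : Z → Z) (x : Z) (f : Z → ℝ) (N : ℕ) :
    ∑ n ∈ Finset.Icc 1 N, f (F^[n] x) = ∑ n ∈ Finset.range N, f (F^[n] (F x)) := by
  rw [Finset.range_eq_Ico, Finset.sum_Ico_eq_sum_range]
  have e : Finset.Icc 1 N = Finset.Ico 1 (N + 1) := by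
    ext n
    simp
  rw [e, Finset.sum_Ico_eq_sum_range]
  simp only [Nat.add_sub_cancel, Nat.sub_zero, Nat.zero_add]
  refine Finset.sum_congr rfl fun n _ => ?_
  rw [Nat.add_comm 1 n, Function.iterate_succ_apply]

/-- A limit of the empirical measures of an orbit. -/
theorem exists_limit {Z : Type*} [MetricSpace Z] [CompactSpace Z] [MeasurableSpace Z]
    [BorelSpace Z] {F : Z → Z} (hF : Continuous F) (x : Z) (U : Ultrafilter ℕ)
    (hU : (U : Filter ℕ) ≤ atTop) :
    ∃ ρ : Measure Z, IsProbabilityMeasure ρ ∧ MeasurePreserving F ρ ρ ∧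
      ∀ f : C(Z, ℝ), Tendsto (fun N : ℕ => (1 / (N : ℝ)) * ∑ n ∈ Finset.Icc 1 N, f (F^[n] x))
        U (𝓝 (∫ z, f z ∂ρ)) := by
  have hne : ∀ N : ℕ, IsProbabilityMeasure (if 0 < N then emp F N (F x) else Measure.dirac x) := by
    intro N
    by_cases h : 0 < N
    · rw [if_pos h]
      exact emp_prob F h (F x)
    · rw [if_neg h]
      infer_instance
  let ν : ℕ → ProbabilityMeasure Z := fun N =>
    ⟨if 0 < N then emp F N (F x) else Measure.dirac x, hne N⟩
  obtain ⟨νl, -, hνl⟩ := (isCompact_univ (X := ProbabilityMeasure Z)).ultrafilter_le_nhds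
    (U.map ν) (by simp)
  have hlim : Tendsto ν U (𝓝 νl) := hνl
  have hint : ∀ f : BoundedContinuousFunction Z ℝ, ∀ y : Z, Integrable f (Measure.dirac y) :=
    fun f y => f.integrable _
  have hlim' := ProbabilityMeasure.tendsto_iff_forall_integral_tendsto.1 hlim
  have hev : ∀ᶠ N in (U : Filter ℕ), 0 < N := hU (eventually_gt_atTop 0)
  have hav : ∀ f : BoundedContinuousFunction Z ℝ,
      Tendsto (fun N : ℕ => (1 / (N : ℝ)) * ∑ n ∈ Finset.Icc 1 N, f (F^[n] x))
        U (𝓝 (∫ z, f z ∂(νl : Measure Z))) := by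
    intro f
    refine (hlim' f).congr' ?_
    filter_upwards [hev] with N hN
    change ∫ ω, f ω ∂(if 0 < N then emp F N (F x) else Measure.dirac x) = _
    rw [if_pos hN, emp_integral F N (F x) f (hint f), sum_Icc_eq, one_div]
  -- invariance
  have hinvl : ∀ f : BoundedContinuousFunction Z ℝ,
      ∫ y, f (F y) ∂(νl : Measure Z) = ∫ y, f y ∂(νl : Measure Z) := by
    intro f
    let g : BoundedContinuousFunction Z ℝ := f.compContinuous ⟨F, hF⟩
    have h3 := (hav g).sub (hav f)
    have h4 : Tendsto (fun N : ℕ => (1 / (N : ℝ)) * ∑ n ∈ Finset.Icc 1 N, g (F^[n] x) -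
        (1 / (N : ℝ)) * ∑ n ∈ Finset.Icc 1 N, f (F^[n] x)) U (𝓝 0) := by
      have h5 : ∀ N : ℕ, ‖(1 / (N : ℝ)) * ∑ n ∈ Finset.Icc 1 N, g (F^[n] x) -
          (1 / (N : ℝ)) * ∑ n ∈ Finset.Icc 1 N, f (F^[n] x)‖ ≤ (1 / (N : ℝ)) * (2 * ‖f‖) := by
        intro N
        have e1 : ∑ n ∈ Finset.Icc 1 N, g (F^[n] x) =
            ∑ n ∈ Finset.range N, f (F^[n + 1] (F x)) := by
          rw [sum_Icc_eq]
          refine Finset.sum_congr rfl fun t _ => ?_
          change f (F (F^[t] (F x))) = _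
          rw [Function.iterate_succ_apply']
        rw [e1, sum_Icc_eq, ← mul_sub, ← Finset.sum_sub_distrib,
          Finset.sum_range_sub (fun t => f (F^[t] (F x))), norm_mul]
        have b1 : ‖f (F^[N] (F x)) - f (F^[0] (F x))‖ ≤ 2 * ‖f‖ := by
          calc ‖f (F^[N] (F x)) - f (F^[0] (F x))‖ ≤ ‖f (F^[N] (F x))‖ + ‖f (F^[0] (F x))‖ :=
                norm_sub_le _ _
            _ ≤ ‖f‖ + ‖f‖ := add_le_add (f.norm_coe_le_norm _) (f.norm_coe_le_norm _)
            _ = 2 * ‖f‖ := by ring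
        have b2 : ‖(1 / (N : ℝ))‖ = 1 / (N : ℝ) := by
          rw [Real.norm_eq_abs, abs_of_nonneg (by positivity)]
        rw [b2]
        exact mul_le_mul_of_nonneg_left b1 (by positivity)
      refine squeeze_zero_norm h5 ?_
      have h6 : Tendsto (fun N : ℕ => (1 / (N : ℝ)) * (2 * ‖f‖)) atTop (𝓝 (0 * (2 * ‖f‖))) :=
        (tendsto_one_div_atTop_nhds_zero_nat).mul_const _
      rw [zero_mul] at h6
      exact h6.mono_left hU
    have h7 := tendsto_nhds_unique h3 h4
    exact sub_eq_zero.1 h7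
  have hmap : (νl : Measure Z).map F = νl := by
    have hp : IsProbabilityMeasure ((νl : Measure Z).map F) :=
      Measure.isProbabilityMeasure_map hF.measurable.aemeasurable
    refine ext_of_forall_integral_eq_of_IsFiniteMeasure fun f => ?_
    rw [integral_map hF.measurable.aemeasurable f.continuous.aestronglyMeasurable]
    exact hinvl f
  refine ⟨νl, inferInstance, ⟨hF.measurable, hmap⟩, fun f => ?_⟩
  exact hav (BoundedContinuousFunction.mkOfCompact f)

end Pool.Agent.Helper48.MTR
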