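import Mathlib
import Pool.Agent.Helper48.MTR.Limit

/-! Möbius disjointness through a closed relation (MP_49a1ce_an). -/

set_option autoImplicit false

open Set Filter Topology MeasureTheory

namespace Pool.Agent.Helper48.MTR

theorem iter_map {X Y : Type*} (S : Y → Y) (T : X → X) (n : ℕ) (y : Y) (z : X) :
    (Prod.map S T)^[n] (y, z) = (S^[n] y, T^[n] z) := by
  rw [Prod.map_iterate]
  rfl

/-- The approximation step. -/
theorem approx_step {X Y : Type*} [MetricSpace X] [CompactSpace X] [MeasurableSpace X]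
    [BorelSpace X] [MetricSpace Y] [CompactSpace Y] [MeasurableSpace Y] [BorelSpace Y]
    {T : X → X} (hT : Continuous T) {S : Y → Y} (hS : Continuous S) (ν : Measure Y)
    [IsProbabilityMeasure ν]
    (huniq : ∀ ν' : Measure Y, IsProbabilityMeasure ν' → MeasurePreserving S ν' ν' → ν' = ν)
    (Γ : Set (Y × X)) (hΓ : IsClosed Γ) (hinv : ∀ p ∈ Γ, (S p.1, T p.2) ∈ Γ)
    {π : Y → X} (hπ : Measurable π) {ψ : X → Y} (hψ : Measurable ψ)
    (hfib : ∀ᵐ y ∂ν, ∀ z, (y, z) ∈ Γ → z = π y) (hinj : ∀ᵐ y ∂ν, ψ (π y) = y)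
    (y : Y) (z : X) (hyz : (y, z) ∈ Γ) (f : C(Y, ℝ)) {ε : ℝ} (hε : 0 < ε) :
    ∃ g : C(X, ℝ), ∀ᶠ N : ℕ in atTop,
      (1 / (N : ℝ)) * ∑ n ∈ Finset.Icc 1 N, |f (S^[n] y) - g (T^[n] z)| ≤ ε := by
  -- approximation of `f ∘ ψ`
  have hpm : IsProbabilityMeasure (ν.map π) := Measure.isProbabilityMeasure_map hπ.aemeasurable
  obtain ⟨M, hM⟩ : ∃ M : ℝ, ∀ y, |f y| ≤ M := by
    obtain ⟨M, hM⟩ := (isCompact_range f.continuous).isBounded.exists_norm_le
    exact ⟨M, fun y => hM _ ⟨y, rfl⟩⟩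
  have hfi : Integrable (fun x => f (ψ x)) (ν.map π) := by
    refine Integrable.of_bound (f.continuous.measurable.comp hψ).aestronglyMeasurable M ?_
    exact Filter.Eventually.of_forall fun x => hM _
  obtain ⟨g, hg, hgi⟩ := hfi.exists_boundedContinuous_integral_sub_le (half_pos hε)
  have hg' : ∫ y, |f y - g (π y)| ∂ν ≤ ε / 2 := by
    have hsm : AEStronglyMeasurable (fun x => ‖f (ψ x) - g x‖) (ν.map π) :=
      (((f.continuous.measurable.comp hψ).sub
        g.continuous.measurable).norm).aestronglyMeasurable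
    rw [integral_map hπ.aemeasurable hsm] at hg
    refine le_trans (le_of_eq ?_) hg
    refine integral_congr_ae ?_
    filter_upwards [hinj] with y hy
    rw [hy, Real.norm_eq_abs]
  refine ⟨g.toContinuousMap, ?_⟩
  by_contra hcon
  rw [Filter.not_eventually] at hcon
  have hnb : (atTop ⊓ 𝓟 {N : ℕ | ¬ (1 / (N : ℝ)) * ∑ n ∈ Finset.Icc 1 N,
      |f (S^[n] y) - g.toContinuousMap (T^[n] z)| ≤ ε}).NeBot :=
    Filter.frequently_mem_iff_neBot.1 hcon
  set U : Ultrafilter ℕ := Ultrafilter.of (atTop ⊓ 𝓟 {N : ℕ | ¬ (1 / (N : ℝ)) *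
    ∑ n ∈ Finset.Icc 1 N, |f (S^[n] y) - g.toContinuousMap (T^[n] z)| ≤ ε}) with hUdef
  have hU : (U : Filter ℕ) ≤ atTop := (Ultrafilter.of_le _).trans inf_le_left
  have hU2 : ∀ᶠ N : ℕ in (U : Filter ℕ), ε ≤ (1 / (N : ℝ)) *
      ∑ n ∈ Finset.Icc 1 N, |f (S^[n] y) - g (T^[n] z)| := by
    have h1 : {N : ℕ | ¬ (1 / (N : ℝ)) * ∑ n ∈ Finset.Icc 1 N,
        |f (S^[n] y) - g.toContinuousMap (T^[n] z)| ≤ ε} ∈ (U : Filter ℕ) :=
      ((Ultrafilter.of_le _).trans inf_le_right) (mem_principal_self _)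
    filter_upwards [h1] with N hN
    exact (not_le.1 hN).le
  obtain ⟨ρ, hρ, hρF, hρlim⟩ := exists_limit (F := Prod.map S T) (hS.prodMap hT) (y, z) U hU
  have hfst : ρ.map Prod.fst = ν := by
    refine huniq _ (Measure.isProbabilityMeasure_map measurable_fst.aemeasurable)
      ⟨hS.measurable, ?_⟩
    rw [Measure.map_map hS.measurable measurable_fst]
    have e : S ∘ Prod.fst = Prod.fst ∘ (Prod.map S T : Y × X → Y × X) := by
      ext p
      rfl
    rw [e, ← Measure.map_map measurable_fst hρF.measurable, hρF.map_eq]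
  -- almost every point is in `Γ`
  have hΓmem : ∀ n : ℕ, (Prod.map S T)^[n] (y, z) ∈ Γ := by
    intro n
    induction n with
    | zero => exact hyz
    | succ n ih =>
      rw [Function.iterate_succ_apply']
      exact hinv _ ih
  have hΓne : Γ.Nonempty := ⟨_, hyz⟩
  have hae : ∀ᵐ p ∂ρ, p ∈ Γ := by
    let d : C(Y × X, ℝ) := ⟨fun p => Metric.infDist p Γ, Metric.continuous_infDist_pt Γ⟩
    have h1 := hρlim d
    have h2 : Tendsto (fun N : ℕ => (1 / (N : ℝ)) * ∑ n ∈ Finset.Icc 1 N,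
        d ((Prod.map S T)^[n] (y, z))) U (𝓝 0) := by
      refine Tendsto.congr (fun N => ?_) tendsto_const_nhds
      rw [Finset.sum_eq_zero, mul_zero]
      intro n _
      exact Metric.infDist_zero_of_mem (hΓmem n)
    have h3 : ∫ p, d p ∂ρ = 0 := tendsto_nhds_unique h1 h2
    have hdi : Integrable (fun p => d p) ρ := by
      obtain ⟨M, hM⟩ := (isCompact_range d.continuous).isBounded.exists_norm_le
      exact Integrable.of_bound d.continuous.aestronglyMeasurable M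
        (Filter.Eventually.of_forall fun x => hM _ ⟨x, rfl⟩)
    have hd0 : 0 ≤ fun p => d p := fun p => Metric.infDist_nonneg
    rw [integral_eq_zero_iff_of_nonneg hd0 hdi] at h3
    filter_upwards [h3] with p hp
    exact (hΓ.mem_iff_infDist_zero hΓne).2 hp
  have hae2 : ∀ᵐ p ∂ρ, p.2 = π p.1 := by
    have h1 : ∀ᵐ y ∂(ρ.map Prod.fst), ∀ z, (y, z) ∈ Γ → z = π y := by
      rw [hfst]
      exact hfib
    have h2 := ae_of_ae_map measurable_fst.aemeasurable h1
    filter_upwards [hae, h2] with p hp hp2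
    exact hp2 p.2 hp
  -- conclusion
  let h : C(Y × X, ℝ) := ⟨fun p => |f p.1 - g p.2|,
    ((f.continuous.comp continuous_fst).sub (g.continuous.comp continuous_snd)).abs⟩
  have h1 := hρlim h
  have h2 : ε ≤ ∫ p, h p ∂ρ := by
    refine ge_of_tendsto h1 ?_
    filter_upwards [hU2] with N hN
    refine hN.trans (le_of_eq ?_)
    congr 1
    refine Finset.sum_congr rfl fun n _ => ?_
    rw [iter_map]
    rfl
  have h3 : ∫ p, h p ∂ρ = ∫ y, |f y - g (π y)| ∂ν := by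
    rw [← hfst, integral_map measurable_fst.aemeasurable]
    · refine integral_congr_ae ?_
      filter_upwards [hae2] with p hp
      change |f p.1 - g p.2| = _
      rw [hp]
    · exact ((f.continuous.measurable.sub
        (g.continuous.measurable.comp hπ)).abs).aestronglyMeasurable
  rw [h3] at h2
  linarith

/-- The pointwise form. -/
theorem point_of_corr {X Y : Type*} [MetricSpace X] [CompactSpace X] [MeasurableSpace X]
    [BorelSpace X] [MetricSpace Y] [CompactSpace Y] [MeasurableSpace Y] [BorelSpace Y]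
    {T : X → X} (hT : Continuous T) {S : Y → Y} (hS : Continuous S) (ν : Measure Y)
    [IsProbabilityMeasure ν]
    (huniq : ∀ ν' : Measure Y, IsProbabilityMeasure ν' → MeasurePreserving S ν' ν' → ν' = ν)
    (Γ : Set (Y × X)) (hΓ : IsClosed Γ) (hinv : ∀ p ∈ Γ, (S p.1, T p.2) ∈ Γ)
    {π : Y → X} (hπ : Measurable π) {ψ : X → Y} (hψ : Measurable ψ)
    (hfib : ∀ᵐ y ∂ν, ∀ z, (y, z) ∈ Γ → z = π y) (hinj : ∀ᵐ y ∂ν, ψ (π y) = y)
    (y : Y) (z : X) (hyz : (y, z) ∈ Γ) (u : ℕ → ℝ) (hu : ∀ n, |u n| ≤ 1)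
    (hMD : ∀ g : C(X, ℝ), Tendsto (fun N : ℕ => (1 / (N : ℝ)) *
      ∑ n ∈ Finset.Icc 1 N, g (T^[n] z) * u n) atTop (𝓝 0)) (f : C(Y, ℝ)) :
    Tendsto (fun N : ℕ => (1 / (N : ℝ)) *
      ∑ n ∈ Finset.Icc 1 N, f (S^[n] y) * u n) atTop (𝓝 0) := by
  rw [Metric.tendsto_nhds]
  intro ε hε
  obtain ⟨g, hg⟩ := approx_step hT hS ν huniq Γ hΓ hinv hπ hψ hfib hinj y z hyz f
    (half_pos hε)
  have h1 := (Metric.tendsto_nhds.1 (hMD g)) (ε / 2) (half_pos hε)
  filter_upwards [hg, h1] with N hN1 hN2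
  rw [Real.dist_eq, sub_zero] at hN2 ⊢
  have e : (1 / (N : ℝ)) * ∑ n ∈ Finset.Icc 1 N, f (S^[n] y) * u n =
      (1 / (N : ℝ)) * ∑ n ∈ Finset.Icc 1 N, g (T^[n] z) * u n +
      (1 / (N : ℝ)) * ∑ n ∈ Finset.Icc 1 N, (f (S^[n] y) - g (T^[n] z)) * u n := by
    rw [← mul_add, ← Finset.sum_add_distrib]
    congr 1
    refine Finset.sum_congr rfl fun n _ => ?_
    ring
  have h2 : |(1 / (N : ℝ)) * ∑ n ∈ Finset.Icc 1 N, (f (S^[n] y) - g (T^[n] z)) * u n| ≤
      (1 / (N : ℝ)) * ∑ n ∈ Finset.Icc 1 N, |f (S^[n] y) - g (T^[n] z)| := by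
    rw [abs_mul, abs_of_nonneg (by positivity : (0 : ℝ) ≤ 1 / (N : ℝ))]
    refine mul_le_mul_of_nonneg_left ?_ (by positivity)
    refine (Finset.abs_sum_le_sum_abs _ _).trans (Finset.sum_le_sum fun n _ => ?_)
    rw [abs_mul]
    exact mul_le_of_le_one_right (abs_nonneg _) (hu n)
  rw [e]
  refine (abs_add_le _ _).trans_lt ?_
  linarith

end Pool.Agent.Helper48.MTR
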